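import Pool.Agent.Helper71.JN.SheetD
import Pool.Agent.Helper78.JN.SPN
import Pool.Agent.Helper47.JN.RK

/-! Project JN (helper71), row SPNK: the spectral norm and the conjugates of elements which have a
denominator in `R`. -/

set_option autoImplicit false

namespace Pool.Agent.Helper53.JN

open Polynomial Pool.Agent.Helper71.JN Pool.Agent.Helper47.JN

theorem SPNK (hP : ST_PRIM) : ST_SPNK := by
  intro F Ω _ _ _ I _ r D i
  obtain ⟨N, h1, h2, h3, h4, h5, h6, h7⟩ := Helper78.JN.SPN hP F Ω I r D i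
  refine ⟨N, h1, h2, h3, h4, h5, ?_, h7⟩
  rintro z ⟨q, hq, hq0, hqz⟩ hi a ha
  set c : D.K := ⟨q, R_le_K D q hq⟩ with hc
  have hc0 : c ≠ 0 := by
    intro h
    apply hq0
    have := congrArg (fun x : D.K => (x : Ω)) h
    simpa [hc] using this
  have hcq : (algebraMap D.K Ω c : Ω) = q := rfl
  have hiq : IsIntegral D.K (q * z) := by
    rw [← hcq]
    exact isIntegral_algebraMap.mul hi
  set P : D.K[X] := (minpoly D.K (q * z)).comp (C c * X) with hPdef
  have hPz : aeval z P = 0 := by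
    rw [hPdef, aeval_comp, map_mul, aeval_C, aeval_X, hcq, minpoly.aeval]
  obtain ⟨P', hP'⟩ := minpoly.dvd D.K z hPz
  have hPa : aeval a P = 0 := by
    rw [hP', map_mul, ha, zero_mul]
  rw [hPdef, aeval_comp, map_mul, aeval_C, aeval_X] at hPa
  have h8 := h6 (q * z) hqz hiq (algebraMap D.K (AlgebraicClosure D.K) c * a) hPa
  have hca : algebraMap D.K (AlgebraicClosure D.K) c⁻¹ *
      (algebraMap D.K (AlgebraicClosure D.K) c * a) = a := by
    rw [← mul_assoc, ← map_mul, inv_mul_cancel₀ hc0, map_one, one_mul]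
  have hqp : 0 < D.nu i q := (D.nu i).pos hq0
  calc N a = N (algebraMap D.K (AlgebraicClosure D.K) c⁻¹ *
      (algebraMap D.K (AlgebraicClosure D.K) c * a)) := by rw [hca]
    _ ≤ N (algebraMap D.K (AlgebraicClosure D.K) c⁻¹) *
      N (algebraMap D.K (AlgebraicClosure D.K) c * a) := h3 _ _
    _ ≤ (D.nu i q)⁻¹ * D.nu i (q * z) := by
      rw [h5]
      have h9 : D.nu i ((c⁻¹ : D.K) : Ω) = (D.nu i q)⁻¹ := by
        rw [IntermediateField.coe_inv, map_inv₀]
      rw [h9]
      exact mul_le_mul_of_nonneg_left h8 (inv_nonneg.2 hqp.le)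
    _ = D.nu i z := by
      rw [map_mul, ← mul_assoc, inv_mul_cancel₀ hqp.ne', one_mul]

end Pool.Agent.Helper53.JN
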