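import Pool.Agent.Helper53.JN.PrimB

/-! Project JN (helper71), row PRIM: the minimal polynomial over `K` of an element of `O` has
coefficients in `R` which are small at every place. -/

set_option autoImplicit false

namespace Pool.Agent.Helper53.JN

open Finset Pool.Agent.Helper71.JN Pool.Agent.Helper47.JN

variable {F Ω : Type} [Field F] [Field Ω] [Algebra F Ω] {I : Type} [Fintype I] {r : ℕ}

theorem sum_bx (L : Fin (r + 1) → ℕ) :
    ∑ α ∈ bx L, α 0 = (∑ j ∈ range (L 0), j) * ∏ k : Fin r, L k.succ := by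
  classical
  have h := Finset.prod_univ_sum (fun j : Fin (r + 1) => range (L j))
    (fun j (x : ℕ) => if j = 0 then x else 1)
  rw [Fin.prod_univ_succ] at h
  simp only [if_true, Fin.succ_ne_zero, if_false, Finset.sum_const, Finset.card_range, smul_eq_mul,
    mul_one] at h
  rw [h]
  unfold bx
  refine Finset.sum_congr rfl fun α _ => ?_
  rw [Fin.prod_univ_succ]
  simp

theorem sum_range_real (n : ℕ) : ((∑ j ∈ range n, j : ℕ) : ℝ) = (n : ℝ) * (n - 1) / 2 := by
  induction n with
  | zero => simp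
  | succ n ih =>
    rw [Finset.sum_range_succ]
    push_cast at ih ⊢
    rw [ih]
    ring

/-- the limit of the box inequalities -/
theorem prim_ineq (D : SSF F Ω I r) {z : Ω} (hzO : z ∈ D.O) (hz : z ≠ 0)
    {a : MvPolynomial (Fin (r + 1)) F} (ha : a ≠ 0) (h0 : Ph D z a = 0)
    (hd : ∀ Q, Ph D z Q = 0 → a ∣ Q) (m : I → Fin (r + 1) →₀ ℕ) (hm : ∀ i, m i ∈ a.support)
    (hmax : ∀ i, ∀ m' ∈ a.support, m' ≠ m i →
      key D z i (m' : Fin (r + 1) → ℕ) < key D z i (m i : Fin (r + 1) → ℕ)) :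
    ∏ i, D.nu i (bm D z (m i : Fin (r + 1) → ℕ)) ≤ (∏ i, D.nu i z) ^ a.degreeOf 0 := by
  set H := ∏ i, D.nu i (bm D z (m i : Fin (r + 1) → ℕ)) with hH
  set Z := ∏ i, D.nu i z with hZ
  have hHpos : 0 < H := Finset.prod_pos fun i _ => (D.nu i).pos (bm_ne D hz _)
  have hZpos : 0 < Z := Finset.prod_pos fun i _ => (D.nu i).pos hz
  have hZ1 : 1 ≤ Z := prod_ge D z hzO hz
  have key1 := Pool.Agent.Helper27.JN.lim_count (r := r) (n := a.degreeOf 0)
    (fun k => a.degreeOf k.succ) (Real.log H) (Real.log Z) (Real.log_nonneg hZ1) (by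
      intro N T hN hT
      set L : Fin (r + 1) → ℕ := Fin.cons N (fun _ => T) with hLdef
      have hL : ∀ j, a.degreeOf j ≤ L j := by
        intro j
        refine Fin.cases ?_ (fun k => ?_) j
        · simpa [hLdef] using hN
        · simpa [hLdef] using hT k
      have h1 := box_prod D hzO hz ha h0 hd L hL m hm hmax
      rw [← hH, ← hZ, Finset.prod_pow_eq_pow_sum, Finset.prod_pow_eq_pow_sum] at h1
      have h2 := Real.log_le_log (by positivity) h1
      rw [Real.log_mul (by positivity) (by positivity), Real.log_pow, Real.log_pow, Real.log_pow,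
        sum_bx, sum_bx] at h2
      have hc : (bx (fun j => L j - a.degreeOf j)).card = ∏ j, (L j - a.degreeOf j) := by
        simp [bx, Fintype.card_piFinset]
      rw [hc, Fin.prod_univ_succ] at h2
      have hL0 : L 0 = N := rfl
      have hLs : ∀ k : Fin r, L k.succ = T := fun k => rfl
      simp only [hL0, hLs, Finset.prod_const, Finset.card_univ, Fintype.card_fin] at h2
      rw [Nat.cast_mul, Nat.cast_mul, Nat.cast_mul, sum_range_real, sum_range_real,
        Nat.cast_prod] at h2
      have h3 : ∀ k : Fin r, ((T - a.degreeOf k.succ : ℕ) : ℝ) = (T : ℝ) - a.degreeOf k.succ :=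
        fun k => Nat.cast_sub (hT k)
      simp only [h3, Nat.cast_sub hN, Nat.cast_pow] at h2
      linarith)
  have h4 : Real.log H ≤ Real.log (Z ^ a.degreeOf 0) := by
    rw [Real.log_pow]
    exact key1
  exact (Real.log_le_log_iff hHpos (by positivity)).1 h4

/-- PRIM. -/
theorem PRIM : ST_PRIM := by
  classical
  intro F Ω _ _ _ I _ r D z hzO hint
  by_cases hz : z = 0
  · subst hz
    have hmin : minpoly D.K (0 : Ω) = Polynomial.X := minpoly.zero D.K Ω
    intro k
    rw [hmin, Polynomial.natDegree_X, Polynomial.coeff_X]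
    by_cases hk : 1 = k
    · rw [if_pos hk]
      refine ⟨by simp, fun i => ?_⟩
      subst hk
      simp
    · rw [if_neg hk]
      refine ⟨by simp, fun i => ?_⟩
      simp
  obtain ⟨a', ha'0, ha'z, ha'd, ha'n, ha'c⟩ := exists_prim D hint
  set a : MvPolynomial (Fin (r + 1)) F := (MvPolynomial.finSuccEquiv F r).symm a' with hadef
  have hfa : MvPolynomial.finSuccEquiv F r a = a' := by
    rw [hadef, AlgEquiv.apply_symm_apply]
  have ha : a ≠ 0 := by
    intro h
    apply ha'0
    rw [← hfa, h, map_zero]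
  have h0 : Ph D z a = 0 := by
    rw [Ph_fse, hfa]
    exact ha'z
  have hd : ∀ Q, Ph D z Q = 0 → a ∣ Q := by
    intro Q hQ
    rw [Ph_fse] at hQ
    obtain ⟨q, hq⟩ := ha'd _ hQ
    refine ⟨(MvPolynomial.finSuccEquiv F r).symm q, ?_⟩
    apply (MvPolynomial.finSuccEquiv F r).injective
    rw [map_mul, hfa, AlgEquiv.apply_symm_apply, hq]
  have hdeg : a.degreeOf 0 = a'.natDegree := by
    rw [← hfa, MvPolynomial.natDegree_finSuccEquiv]
  choose m hm hmax using exists_lead D z ha
  have hineq := prim_ineq D hzO hz ha h0 hd m hm hmax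
  set h : I → ℝ := fun i => D.nu i (bm D z (m i : Fin (r + 1) → ℕ)) with hh
  have hle : ∀ i, ∀ m' ∈ a.support, D.nu i (bm D z (m' : Fin (r + 1) → ℕ)) ≤ h i := by
    intro i m' hm'
    by_cases hne : m' = m i
    · rw [hne]
    · have h1 := hmax i m' hm' hne
      unfold key at h1
      rw [Prod.Lex.toLex_lt_toLex] at h1
      rcases h1 with h1 | ⟨h1, -⟩
      · exact h1.le
      · exact h1.le
  -- the coefficients
  have hco : ∀ i k, D.nu i (D.ev (a'.coeff k)) * D.nu i z ^ k ≤ h i := by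
    intro i k
    rw [← map_pow, ← map_mul, ev_sum, Finset.sum_mul]
    refine nu_sum_le D i _ ((D.nu i).nonneg _) _ _ fun m' hm' => ?_
    have hc : (a'.coeff k).coeff m' ≠ 0 := MvPolynomial.mem_support_iff.1 hm'
    have hc' : a.coeff (m'.cons k) ≠ 0 := by
      rw [← MvPolynomial.finSuccEquiv_coeff_coeff, hfa]
      exact hc
    rw [mul_assoc, nu_term D i _ hc]
    refine le_trans (le_of_eq ?_) (hle i (m'.cons k) (MvPolynomial.mem_support_iff.2 hc'))
    congr 1
    rw [bm_prod, mul_comm]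
    congr 1
    simp [mon, nz]
  set lc : Ω := D.ev a'.leadingCoeff with hlc
  have hlc0 : lc ≠ 0 := ev_ne D _ (Polynomial.leadingCoeff_ne_zero.2 ha'0)
  have hlcR : lc ∈ D.R := ev_mem D _
  have hzp : ∀ i, 0 < D.nu i z := fun i => (D.nu i).pos hz
  have hlp : ∀ i, 0 < D.nu i lc := fun i => (D.nu i).pos hlc0
  set n := a'.natDegree with hn
  have hn1 : ∀ i, D.nu i lc * D.nu i z ^ n ≤ h i := fun i => hco i n
  have hprod : (∏ i, D.nu i lc) * (∏ i, D.nu i z) ^ n = ∏ i, (D.nu i lc * D.nu i z ^ n) := by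
    rw [Finset.prod_mul_distrib, Finset.prod_pow]
  have hZpos : 0 < ∏ i, D.nu i z := Finset.prod_pos fun i _ => hzp i
  have h1 : (∏ i, D.nu i lc) * (∏ i, D.nu i z) ^ n ≤ ∏ i, h i := by
    rw [hprod]
    exact Finset.prod_le_prod (fun i _ => by positivity) fun i _ => hn1 i
  rw [hdeg] at hineq
  have hle1 : ∏ i, D.nu i lc ≤ 1 := by
    have h2 := h1.trans hineq
    have h3 : 0 < (∏ i, D.nu i z) ^ n := by positivity
    exact le_of_mul_le_mul_right (by rwa [one_mul]) h3
  have hge1 : 1 ≤ ∏ i, D.nu i lc := prod_ge D _ (R_le_O D _ hlcR) hlc0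
  have heq1 : ∏ i, D.nu i lc = 1 := le_antisymm hle1 hge1
  have heq : ∀ i, h i = D.nu i lc * D.nu i z ^ n := by
    by_contra hcon
    push Not at hcon
    obtain ⟨i, hi⟩ := hcon
    have hlt : ∏ i, (D.nu i lc * D.nu i z ^ n) < ∏ i, h i :=
      Finset.prod_lt_prod (fun i _ => mul_pos (hlp i) (pow_pos (hzp i) n)) (fun i _ => hn1 i)
        ⟨i, Finset.mem_univ _, lt_of_le_of_ne (hn1 i) (Ne.symm hi)⟩
    rw [← hprod, heq1, one_mul] at hlt
    linarith
  obtain ⟨c, μ, hc0, hcm⟩ := R_unit D lc hlcR hlc0 hle1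
  have hcA : algebraMap F Ω c ≠ 0 := by
    intro h'
    apply hlc0
    rw [hcm, h', zero_mul]
  intro k
  have hck : D.ev (a'.coeff k) = lc * (((minpoly D.K z).coeff k : D.K) : Ω) := ha'c k
  constructor
  · have h2 : (((minpoly D.K z).coeff k : D.K) : Ω) =
        algebraMap F Ω c⁻¹ * mon D.w (-μ) * D.ev (a'.coeff k) := by
      rw [hck, hcm, map_inv₀, mon_neg]
      have hmu : mon D.w μ ≠ 0 := mon_ne D.w0 μ
      field_simp
    rw [h2]
    exact D.R.mul_mem (D.R.mul_mem (D.R.algebraMap_mem _) (mon_mem D _)) (ev_mem D _)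
  · intro i
    by_cases hk : k ≤ n
    · have h2 := hco i k
      rw [hck, map_mul, heq] at h2
      have h3 : D.nu i (((minpoly D.K z).coeff k : D.K) : Ω) * D.nu i z ^ k ≤ D.nu i z ^ n := by
        have h4 : D.nu i lc * (D.nu i (((minpoly D.K z).coeff k : D.K) : Ω) * D.nu i z ^ k) ≤
            D.nu i lc * D.nu i z ^ n := by
          rw [← mul_assoc]
          exact h2
        exact le_of_mul_le_mul_left h4 (hlp i)
      rw [← ha'n]
      have h5 : D.nu i z ^ n = D.nu i z ^ (n - k) * D.nu i z ^ k := by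
        rw [← pow_add, Nat.sub_add_cancel hk]
      rw [h5] at h3
      exact le_of_mul_le_mul_right h3 (pow_pos (hzp i) k)
    · have h6 : (minpoly D.K z).coeff k = 0 := by
        apply Polynomial.coeff_eq_zero_of_natDegree_lt
        rw [← ha'n]
        omega
      rw [h6]
      simp only [ZeroMemClass.coe_zero, map_zero]
      exact pow_nonneg (hzp i).le _

end Pool.Agent.Helper53.JN
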