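import Pool.Agent.Helper47.JN.RK
import Pool.Agent.Helper71.JN.SheetB

/-! Project JN (helper71), row PRIM, part 1: the primitive multiple of the minimal polynomial. -/

set_option autoImplicit false

namespace Pool.Agent.Helper53.JN

open Polynomial Pool.Agent.Helper71.JN Pool.Agent.Helper47.JN

variable {F Ω : Type} [Field F] [Field Ω] [Algebra F Ω] {I : Type} [Fintype I] {r : ℕ}

/-- evaluation at `z` and the units -/
noncomputable def Ph (D : SSF F Ω I r) (z : Ω) : MvPolynomial (Fin (r + 1)) F →ₐ[F] Ω :=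
  MvPolynomial.aeval (Fin.cons z D.w : Fin (r + 1) → Ω)

theorem Ph_fse (D : SSF F Ω I r) (z : Ω) (p : MvPolynomial (Fin (r + 1)) F) :
    Ph D z p = eval₂ (D.ev : MvPolynomial (Fin r) F →+* Ω) z (MvPolynomial.finSuccEquiv F r p) := by
  induction p using MvPolynomial.induction_on with
  | C c =>
    rw [MvPolynomial.finSuccEquiv_apply]
    simp [Ph, SSF.ev]
  | add p q hp hq =>
    rw [map_add, map_add, eval₂_add, hp, hq]
  | mul_X p j hp =>
    rw [map_mul, map_mul, eval₂_mul, hp]
    congr 1
    refine Fin.cases ?_ (fun j => ?_) j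
    · rw [MvPolynomial.finSuccEquiv_X_zero, eval₂_X]
      simp [Ph]
    · rw [MvPolynomial.finSuccEquiv_X_succ, eval₂_C]
      simp [Ph, SSF.ev]

theorem exists_prim (D : SSF F Ω I r) {z : Ω} (hz : IsIntegral D.K z) :
    ∃ a : (MvPolynomial (Fin r) F)[X], a ≠ 0 ∧
      eval₂ (D.ev : MvPolynomial (Fin r) F →+* Ω) z a = 0 ∧
      (∀ Q : (MvPolynomial (Fin r) F)[X],
        eval₂ (D.ev : MvPolynomial (Fin r) F →+* Ω) z Q = 0 → a ∣ Q) ∧
      a.natDegree = (minpoly D.K z).natDegree ∧
      ∀ k, D.ev (a.coeff k) = D.ev a.leadingCoeff * (((minpoly D.K z).coeff k : D.K) : Ω) := by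
  classical
  let j : MvPolynomial (Fin r) F →+* D.K :=
    RingHom.codRestrict (D.ev : MvPolynomial (Fin r) F →+* Ω) D.K
      (fun p => R_le_K D _ (ev_mem D p))
  let _ : Algebra (MvPolynomial (Fin r) F) D.K := j.toAlgebra
  have hj : ∀ p, ((algebraMap (MvPolynomial (Fin r) F) D.K p : D.K) : Ω) = D.ev p := fun p => rfl
  have hinj : Function.Injective (algebraMap (MvPolynomial (Fin r) F) D.K) := by
    intro p q h
    apply ev_inj D
    rw [← hj, ← hj, h]
  have _ : FaithfulSMul (MvPolynomial (Fin r) F) D.K :=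
    (faithfulSMul_iff_algebraMap_injective _ _).2 hinj
  have _ : IsFractionRing (MvPolynomial (Fin r) F) D.K := by
    refine IsFractionRing.of_field _ _ fun x => ?_
    obtain ⟨p, q, hq, h⟩ := K_form D x x.2
    refine ⟨p, q, ?_⟩
    apply Subtype.ext
    rw [h]
    push_cast
    rw [hj, hj]
  let _ : NormalizedGCDMonoid (MvPolynomial (Fin r) F) := Classical.arbitrary _
  set p : D.K[X] := minpoly D.K z with hp
  have hp0 : p ≠ 0 := minpoly.ne_zero hz
  set q0 := IsLocalization.integerNormalization (nonZeroDivisors (MvPolynomial (Fin r) F)) p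
    with hq0
  obtain ⟨b, hb, hqb⟩ := IsLocalization.integerNormalization_spec
    (nonZeroDivisors (MvPolynomial (Fin r) F)) p
  have hb0 : b ≠ 0 := nonZeroDivisors.ne_zero hb
  have hq00 : q0 ≠ 0 := by
    rw [hq0, Ne, IsFractionRing.integerNormalization_eq_zero_iff]
    exact hp0
  have hc0 : q0.content ≠ 0 := by
    rw [Ne, content_eq_zero_iff]
    exact hq00
  set a := q0.primPart with ha
  have hq1 : q0 = C q0.content * a := q0.eq_C_content_mul_primPart
  have hbK : (algebraMap (MvPolynomial (Fin r) F) D.K b) ≠ 0 := by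
    intro h
    exact hb0 (hinj (by rw [h, map_zero]))
  have hcK : (algebraMap (MvPolynomial (Fin r) F) D.K q0.content) ≠ 0 := by
    intro h
    exact hc0 (hinj (by rw [h, map_zero]))
  set c : D.K := algebraMap (MvPolynomial (Fin r) F) D.K b /
    algebraMap (MvPolynomial (Fin r) F) D.K q0.content with hc
  have hcne : c ≠ 0 := div_ne_zero hbK hcK
  have hmap : a.map (algebraMap (MvPolynomial (Fin r) F) D.K) = C c * p := by
    have h1 : q0.map (algebraMap (MvPolynomial (Fin r) F) D.K) =
        C (algebraMap (MvPolynomial (Fin r) F) D.K b) * p := by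
      rw [hq0, hqb, ← IsScalarTower.algebraMap_smul D.K b p, smul_eq_C_mul]
    rw [hq1, Polynomial.map_mul, map_C] at h1
    have h2 : C (algebraMap (MvPolynomial (Fin r) F) D.K q0.content) *
        a.map (algebraMap (MvPolynomial (Fin r) F) D.K) =
        C (algebraMap (MvPolynomial (Fin r) F) D.K q0.content) * (C c * p) := by
      rw [h1, ← mul_assoc, ← C_mul, hc, mul_div_cancel₀ _ hcK]
    exact mul_left_cancel₀ (by rwa [Ne, C_eq_zero]) h2
  have hev : ∀ Q : (MvPolynomial (Fin r) F)[X],
      eval₂ (D.ev : MvPolynomial (Fin r) F →+* Ω) z Q =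
        aeval z (Q.map (algebraMap (MvPolynomial (Fin r) F) D.K)) := by
    intro Q
    rw [aeval_def, eval₂_map]
    rfl
  have hdeg : a.natDegree = p.natDegree := by
    have h1 := natDegree_map_eq_of_injective hinj a
    rw [hmap, natDegree_C_mul hcne] at h1
    exact h1.symm
  have hcoef : ∀ k, (D.ev (a.coeff k) : Ω) = (c : Ω) * ((p.coeff k : D.K) : Ω) := by
    intro k
    have h1 : (a.map (algebraMap (MvPolynomial (Fin r) F) D.K)).coeff k = (C c * p).coeff k := by
      rw [hmap]
    rw [coeff_map, coeff_C_mul] at h1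
    have h2 := congrArg (fun x : D.K => (x : Ω)) h1
    rw [← hj]
    simpa using h2
  refine ⟨a, ?_, ?_, ?_, hdeg, ?_⟩
  · intro h0
    apply hq00
    rw [hq1, h0, mul_zero]
  · rw [hev, hmap, map_mul, minpoly.aeval, mul_zero]
  · intro Q hQ
    rw [hev] at hQ
    have h1 : p ∣ Q.map (algebraMap (MvPolynomial (Fin r) F) D.K) := minpoly.dvd D.K z hQ
    refine (isPrimitive_primPart q0).dvd_of_fraction_map_dvd_fraction_map (K := D.K) ?_
    rw [← ha, hmap]
    obtain ⟨q1, hq1'⟩ := h1
    refine ⟨C c⁻¹ * q1, ?_⟩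
    rw [hq1']
    have : C c * p * (C c⁻¹ * q1) = (C c * C c⁻¹) * (p * q1) := by ring
    rw [this, ← C_mul, mul_inv_cancel₀ hcne, C_1, one_mul]
  · intro k
    have h1 : (D.ev a.leadingCoeff : Ω) = (c : Ω) := by
      have := hcoef a.natDegree
      rw [hdeg] at this
      have hm : p.coeff p.natDegree = 1 := minpoly.monic hz
      rw [hm] at this
      rw [leadingCoeff, hdeg, this]
      simp
    rw [h1]
    exact hcoef k

end Pool.Agent.Helper53.JN
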