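import Pool.Agent.Helper53.JN.PrimA
import Pool.Agent.Helper2.JN.SSX
import Pool.Agent.Helper70.JN.LEAD
import Pool.Agent.Helper70.JN.BoxDim
import Pool.Agent.Helper27.JN.LimCount

/-! Project JN (helper71), row PRIM, part 2: the product over a box of exponents. -/

set_option autoImplicit false

namespace Pool.Agent.Helper53.JN

open Finset Pool.Agent.Helper71.JN Pool.Agent.Helper47.JN

variable {F Ω : Type} [Field F] [Field Ω] [Algebra F Ω] {I : Type} [Fintype I] {r : ℕ}

/-- the monomial with exponents `α` at `z` and the units -/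
noncomputable def bm (D : SSF F Ω I r) (z : Ω) (α : Fin (r + 1) → ℕ) : Ω :=
  Ph D z (MvPolynomial.monomial (Finsupp.equivFunOnFinite.symm α) 1)

theorem bm_prod (D : SSF F Ω I r) (z : Ω) (α : Fin (r + 1) → ℕ) :
    bm D z α = z ^ α 0 * ∏ k : Fin r, D.w k ^ α k.succ := by
  unfold bm Ph
  rw [MvPolynomial.aeval_monomial, map_one, one_mul, Finsupp.prod_fintype _ _ (by simp),
    Fin.prod_univ_succ]
  simp

theorem bm_add (D : SSF F Ω I r) (z : Ω) (α β : Fin (r + 1) → ℕ) :
    bm D z (α + β) = bm D z α * bm D z β := by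
  rw [bm_prod, bm_prod, bm_prod]
  simp only [Pi.add_apply, pow_add, Finset.prod_mul_distrib]
  ring

theorem bm_ne (D : SSF F Ω I r) {z : Ω} (hz : z ≠ 0) (α : Fin (r + 1) → ℕ) : bm D z α ≠ 0 := by
  rw [bm_prod]
  exact mul_ne_zero (pow_ne_zero _ hz)
    (Finset.prod_ne_zero_iff.2 fun k _ => pow_ne_zero _ (D.w0 k))

theorem bm_O (D : SSF F Ω I r) {z : Ω} (hz : z ∈ D.O) (α : Fin (r + 1) → ℕ) : bm D z α ∈ D.O := by
  rw [bm_prod]
  exact D.O.mul_mem (D.O.pow_mem hz _) (D.O.prod_mem fun k _ => D.O.pow_mem (D.wO k) _)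

theorem bm_nu_prod (D : SSF F Ω I r) (z : Ω) (α : Fin (r + 1) → ℕ) :
    ∏ i, D.nu i (bm D z α) = (∏ i, D.nu i z) ^ α 0 := by
  have h1 : bm D z α = z ^ α 0 * mon D.w (fun k => (α k.succ : ℤ)) := by
    rw [bm_prod]
    simp [mon]
  rw [h1]
  simp only [map_mul, map_pow, Finset.prod_mul_distrib, prod_mon, mul_one, Finset.prod_pow]

/-- the value of a polynomial is the sum of its terms -/
theorem Ph_sum (D : SSF F Ω I r) (z : Ω) (a : MvPolynomial (Fin (r + 1)) F) :
    Ph D z a = ∑ m ∈ a.support, algebraMap F Ω (a.coeff m) * bm D z (m : Fin (r + 1) → ℕ) := by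
  conv_lhs => rw [a.as_sum, map_sum]
  refine Finset.sum_congr rfl fun m _ => ?_
  have h1 : MvPolynomial.monomial m (a.coeff m) =
      a.coeff m • MvPolynomial.monomial (Finsupp.equivFunOnFinite.symm (m : Fin (r + 1) → ℕ)) 1 := by
    rw [MvPolynomial.smul_monomial, smul_eq_mul, mul_one]
    congr 1
    ext j
    simp
  rw [h1, map_smul, Algebra.smul_def]
  rfl

/-- the key of an exponent at a place -/
noncomputable def key (D : SSF F Ω I r) (z : Ω) (i : I) (α : Fin (r + 1) → ℕ) :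
    ℝ ×ₗ (Lex (Fin (r + 1) → ℕ)) := toLex (D.nu i (bm D z α), toLex α)

theorem key_add (D : SSF F Ω I r) {z : Ω} (hz : z ≠ 0) (i : I) {α β : Fin (r + 1) → ℕ}
    (γ : Fin (r + 1) → ℕ) (h : key D z i α < key D z i β) :
    key D z i (α + γ) < key D z i (β + γ) := by
  unfold key at h ⊢
  rw [Prod.Lex.toLex_lt_toLex] at h ⊢
  have hg : 0 < D.nu i (bm D z γ) := (D.nu i).pos (bm_ne D hz γ)
  simp only [bm_add, map_mul] at h ⊢
  rcases h with h | ⟨h1, h2⟩
  · exact Or.inl (mul_lt_mul_of_pos_right h hg)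
  · refine Or.inr ⟨by rw [h1], ?_⟩
    have := add_lt_add_left h2 (toLex γ)
    exact this

theorem key_inj (D : SSF F Ω I r) (z : Ω) (i : I) {α β : Fin (r + 1) → ℕ}
    (h : key D z i α = key D z i β) : α = β := by
  unfold key at h
  have := congrArg (fun x => (ofLex (ofLex x).2)) h
  simpa using this

/-- the box of the exponents `< L` -/
def bx (L : Fin (r + 1) → ℕ) : Finset (Fin (r + 1) → ℕ) :=
  Fintype.piFinset fun j => range (L j)

theorem mem_bx {L : Fin (r + 1) → ℕ} {α : Fin (r + 1) → ℕ} : α ∈ bx L ↔ ∀ j, α j < L j := by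
  simp [bx]

/-- the leading exponent at a place -/
theorem exists_lead (D : SSF F Ω I r) (z : Ω) {a : MvPolynomial (Fin (r + 1)) F} (ha : a ≠ 0)
    (i : I) : ∃ m ∈ a.support, ∀ m' ∈ a.support, m' ≠ m →
      key D z i (m' : Fin (r + 1) → ℕ) < key D z i (m : Fin (r + 1) → ℕ) := by
  obtain ⟨m, hm, hmax⟩ := a.support.exists_max_image
    (fun m => key D z i (m : Fin (r + 1) → ℕ)) (MvPolynomial.support_nonempty.2 ha)
  refine ⟨m, hm, fun m' hm' hne => lt_of_le_of_ne (hmax m' hm') fun h => hne ?_⟩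
  exact DFunLike.coe_injective (key_inj D z i h)

section
variable (D : SSF F Ω I r) {z : Ω} (hzO : z ∈ D.O) (hz : z ≠ 0)
  {a : MvPolynomial (Fin (r + 1)) F} (ha : a ≠ 0) (h0 : Ph D z a = 0)
  (hd : ∀ Q, Ph D z Q = 0 → a ∣ Q) (L : Fin (r + 1) → ℕ) (hL : ∀ j, a.degreeOf j ≤ L j)
include hz h0 hL

theorem lead_span (i : I) (m : Fin (r + 1) →₀ ℕ) (hm : m ∈ a.support)
    (hmax : ∀ m' ∈ a.support, m' ≠ m →
      key D z i (m' : Fin (r + 1) → ℕ) < key D z i (m : Fin (r + 1) → ℕ)) :
    ∀ α ∈ bx L, bm D z α ∈ Submodule.span F (bm D z '' ((bx L \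
      (bx (fun j => L j - a.degreeOf j)).image fun ν => (m : Fin (r + 1) → ℕ) + ν :
        Finset (Fin (r + 1) → ℕ)) : Set (Fin (r + 1) → ℕ))) := by
  classical
  set W := Submodule.span F (bm D z '' ((bx L \
      (bx (fun j => L j - a.degreeOf j)).image fun ν => (m : Fin (r + 1) → ℕ) + ν :
        Finset (Fin (r + 1) → ℕ)) : Set (Fin (r + 1) → ℕ))) with hW
  refine Pool.Agent.Helper70.JN.st_LEAD F Ω (Fin (r + 1) → ℕ) _ (bx L) (key D z i) (bm D z) W ?_
  intro α hα
  by_cases hin : α ∈ (bx (fun j => L j - a.degreeOf j)).image fun ν => (m : Fin (r + 1) → ℕ) + ν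
  · refine Submodule.mem_sup_right ?_
    obtain ⟨ν, hν, rfl⟩ := Finset.mem_image.1 hin
    have h1 : ∑ m' ∈ a.support, algebraMap F Ω (a.coeff m') *
        bm D z ((m' : Fin (r + 1) → ℕ) + ν) = 0 := by
      have h2 := Ph_sum D z a
      rw [h0] at h2
      have h3 := congrArg (fun x => x * bm D z ν) h2
      simp only [zero_mul, Finset.sum_mul] at h3
      rw [h3]
      refine Finset.sum_congr rfl fun m' _ => ?_
      rw [bm_add]
      ring
    rw [← Finset.add_sum_erase _ _ hm] at h1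
    have hc : a.coeff m ≠ 0 := MvPolynomial.mem_support_iff.1 hm
    have h4 : bm D z ((m : Fin (r + 1) → ℕ) + ν) =
        (a.coeff m)⁻¹ • -(∑ m' ∈ a.support.erase m, algebraMap F Ω (a.coeff m') *
          bm D z ((m' : Fin (r + 1) → ℕ) + ν)) := by
      have h5 : algebraMap F Ω (a.coeff m) * bm D z ((m : Fin (r + 1) → ℕ) + ν) =
          -(∑ m' ∈ a.support.erase m, algebraMap F Ω (a.coeff m') *
          bm D z ((m' : Fin (r + 1) → ℕ) + ν)) := eq_neg_of_add_eq_zero_left h1
      rw [← h5, ← Algebra.smul_def, smul_smul, inv_mul_cancel₀ hc, one_smul]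
    rw [h4]
    refine Submodule.smul_mem _ _ (Submodule.neg_mem _ (Submodule.sum_mem _ fun m' hm' => ?_))
    rw [← Algebra.smul_def]
    refine Submodule.smul_mem _ _ (Submodule.subset_span ?_)
    obtain ⟨hne, hm's⟩ := Finset.mem_erase.1 hm'
    refine ⟨(m' : Fin (r + 1) → ℕ) + ν, ⟨?_, key_add D hz i ν (hmax m' hm's hne)⟩, rfl⟩
    rw [mem_bx] at hν ⊢
    intro j
    have h6 : (m' : Fin (r + 1) → ℕ) j ≤ a.degreeOf j := MvPolynomial.le_degreeOf_of_mem_support j hm's
    have h7 := hν j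
    have h8 := hL j
    simp only [Pi.add_apply]
    omega
  · refine Submodule.mem_sup_left (Submodule.subset_span ⟨α, ?_, rfl⟩)
    rw [Finset.mem_coe, Finset.mem_sdiff]
    exact ⟨hα, hin⟩

include hzO hd ha

/-- the product inequality for one box -/
theorem box_prod (m : I → Fin (r + 1) →₀ ℕ) (hm : ∀ i, m i ∈ a.support)
    (hmax : ∀ i, ∀ m' ∈ a.support, m' ≠ m i →
      key D z i (m' : Fin (r + 1) → ℕ) < key D z i (m i : Fin (r + 1) → ℕ)) :
    (∏ i, D.nu i (bm D z (m i : Fin (r + 1) → ℕ))) ^ (bx (fun j => L j - a.degreeOf j)).card *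
      ∏ α ∈ bx (fun j => L j - a.degreeOf j), (∏ i, D.nu i z) ^ α 0 ≤
      ∏ α ∈ bx L, (∏ i, D.nu i z) ^ α 0 := by
  classical
  set T : I → Finset (Fin (r + 1) → ℕ) := fun i => bx L \
      (bx (fun j => L j - a.degreeOf j)).image fun ν => (m i : Fin (r + 1) → ℕ) + ν with hT
  have hsub : ∀ i, (bx (fun j => L j - a.degreeOf j)).image
      (fun ν => (m i : Fin (r + 1) → ℕ) + ν) ⊆ bx L := by
    intro i α hα
    obtain ⟨ν, hν, rfl⟩ := Finset.mem_image.1 hα
    rw [mem_bx] at hν ⊢
    intro j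
    have h6 : (m i : Fin (r + 1) → ℕ) j ≤ a.degreeOf j :=
      MvPolynomial.le_degreeOf_of_mem_support j (hm i)
    have h7 := hν j
    have h8 := hL j
    simp only [Pi.add_apply]
    omega
  have hinj : ∀ i, Function.Injective fun ν : Fin (r + 1) → ℕ => (m i : Fin (r + 1) → ℕ) + ν :=
    fun i => add_right_injective _
  set U := Submodule.span F (bm D z '' {al | ∀ j, al j < L j}) with hU
  have hfin : Module.finrank F U = (∏ j, L j) - ∏ j, (L j - a.degreeOf j) :=
    Pool.Agent.Helper70.JN.finrank_box (Ph D z) a ha h0 hd L hL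
  have hset : {al : Fin (r + 1) → ℕ | ∀ j, al j < L j} = (bx L : Set (Fin (r + 1) → ℕ)) := by
    ext al
    rw [Finset.mem_coe, mem_bx]
    rfl
  have hcardL : (bx L).card = ∏ j, L j := by
    simp [bx, Fintype.card_piFinset]
  have hcardL' : (bx (fun j => L j - a.degreeOf j)).card = ∏ j, (L j - a.degreeOf j) := by
    simp [bx, Fintype.card_piFinset]
  have hfd : FiniteDimensional F U := by
    rw [hU, hset]
    exact FiniteDimensional.span_of_finite F ((bx L).finite_toSet.image _)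
  let B := Module.finBasis F U
  have hUO : ∀ x ∈ U, x ∈ D.O := by
    intro x hx
    rw [hU] at hx
    induction hx using Submodule.span_induction with
    | mem x hx =>
      obtain ⟨α, -, rfl⟩ := hx
      exact bm_O D hzO α
    | zero => exact D.O.zero_mem
    | add x y _ _ hx hy => exact D.O.add_mem hx hy
    | smul c x _ hx =>
      rw [Algebra.smul_def]
      exact D.O.mul_mem (D.FO c) hx
  have hrange : Submodule.span F (Set.range fun k => (B k : Ω)) = U := by
    have h1 : (fun k => (B k : Ω)) = U.subtype ∘ B := rfl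
    rw [h1, Set.range_comp, ← Submodule.map_span, B.span_eq, Submodule.map_top,
      Submodule.range_subtype]
  have key1 := Pool.Agent.Helper2.JN.SSX F Ω I r D (Fin (Module.finrank F U)) (Fin (r + 1) → ℕ)
    (fun k => (B k : Ω)) T (fun _ α => bm D z α) (fun k => hUO _ (B k).2)
    (B.linearIndependent.map' U.subtype (Submodule.ker_subtype U))
    (by
      intro i
      rw [Fintype.card_fin, hfin, hT]
      simp only
      rw [Finset.card_sdiff_of_subset (hsub i), Finset.card_image_of_injective _ (hinj i), hcardL,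
        hcardL'])
    (by
      intro i α hα
      rw [hrange, hU]
      refine Submodule.subset_span ⟨α, ?_, rfl⟩
      have := (Finset.mem_sdiff.1 hα).1
      rw [mem_bx] at this
      exact this)
    (by
      intro i k
      have h1 : U ≤ Submodule.span F (bm D z '' (T i : Set (Fin (r + 1) → ℕ))) := by
        rw [hU]
        refine Submodule.span_le.2 ?_
        rintro _ ⟨α, hα, rfl⟩
        exact lead_span D hz h0 L hL i (m i) (hm i) (hmax i) α (mem_bx.2 hα)
      exact h1 (B k).2)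
  have h1 : ∀ i, (∏ α ∈ T i, D.nu i (bm D z α)) *
      ((D.nu i (bm D z (m i : Fin (r + 1) → ℕ))) ^ (bx (fun j => L j - a.degreeOf j)).card *
        ∏ α ∈ bx (fun j => L j - a.degreeOf j), D.nu i (bm D z α)) =
      ∏ α ∈ bx L, D.nu i (bm D z α) := by
    intro i
    rw [← Finset.prod_sdiff (hsub i), Finset.prod_image (fun x _ y _ h => hinj i h)]
    congr 1
    simp only [bm_add, map_mul]
    rw [Finset.prod_mul_distrib, Finset.prod_const]
  have h2 : (∏ i, ∏ α ∈ T i, D.nu i (bm D z α)) *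
      ((∏ i, D.nu i (bm D z (m i : Fin (r + 1) → ℕ))) ^
          (bx (fun j => L j - a.degreeOf j)).card *
        ∏ α ∈ bx (fun j => L j - a.degreeOf j), (∏ i, D.nu i z) ^ α 0) =
      ∏ α ∈ bx L, (∏ i, D.nu i z) ^ α 0 := by
    have h3 : ∀ B' : Finset (Fin (r + 1) → ℕ), ∏ α ∈ B', (∏ i, D.nu i z) ^ α 0 =
        ∏ i, ∏ α ∈ B', D.nu i (bm D z α) := by
      intro B'
      rw [Finset.prod_comm]
      exact Finset.prod_congr rfl fun α _ => (bm_nu_prod D z α).symm
    rw [h3, h3, ← Finset.prod_pow, ← Finset.prod_mul_distrib, ← Finset.prod_mul_distrib]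
    exact Finset.prod_congr rfl fun i _ => h1 i
  rw [← h2]
  have hpos : 0 ≤ (∏ i, D.nu i (bm D z (m i : Fin (r + 1) → ℕ))) ^
          (bx (fun j => L j - a.degreeOf j)).card *
        ∏ α ∈ bx (fun j => L j - a.degreeOf j), (∏ i, D.nu i z) ^ α 0 := by
    refine mul_nonneg (pow_nonneg (Finset.prod_nonneg fun i _ => (D.nu i).nonneg _) _)
      (Finset.prod_nonneg fun α _ => pow_nonneg (Finset.prod_nonneg fun i _ => (D.nu i).nonneg _) _)
  exact le_mul_of_one_le_left hpos key1

end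

end Pool.Agent.Helper53.JN
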